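import Mathlib
import Pool.Agent.H829R3.LR4

set_option autoImplicit false

/-!
# Linear refinements: the lengths of the refinements below the linear refinement number
-/

open Set Cardinal

namespace Pool.Agent.Y972.LR

open Pool.Agent.H829R3.LR

variable {α : Type}

/-- a decreasing sequence of infinite sets of length `κ` -/
def Dec (κ : Cardinal.{0}) (t : κ.ord.ToType → Set α) : Prop :=
  (∀ i, (t i).Infinite) ∧ ∀ i j, i ≤ j → AlmostLE (t j) (t i)

/-- a pseudointersection -/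
def Ps (P : Set α) (F : Set (Set α)) : Prop := P.Infinite ∧ ∀ A ∈ F, AlmostLE P A

lemma Dec.lin {κ : Cardinal.{0}} {t : κ.ord.ToType → Set α} (h : Dec κ t) : Lin (range t) := by
  constructor
  · rintro _ ⟨i, rfl⟩
    exact h.1 i
  · rintro _ ⟨i, rfl⟩ _ ⟨j, rfl⟩
    rcases le_total i j with hij | hij
    · exact Or.inr (h.2 i j hij)
    · exact Or.inl (h.2 j i hij)

lemma mk_range_dec (κ : Cardinal.{0}) (t : κ.ord.ToType → Set α) : #(range t) ≤ κ := by
  refine Cardinal.mk_range_le.trans ?_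
  simp

/-- a linear family is centered -/
lemma Lin.cent [Infinite α] {T : Set (Set α)} (h : Lin T) : Cent T := by
  intro Φ hΦ
  rcases Φ.eq_empty_or_nonempty with rfl | ⟨c, hc⟩
  · simpa using Set.infinite_univ
  · have h1 := compat h (G := T) (fun A hA => ⟨A, hA, AlmostLE.refl A⟩) (hΦ hc) Φ hΦ
    exact h1.mono inter_subset_right

lemma bounded {κ : Cardinal.{0}} (hκ : κ.IsRegular) (S : Set κ.ord.ToType) (hS : #S < κ) :
    ∃ j, ∀ i ∈ S, i ≤ j := by
  by_contra hcon
  push Not at hcon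
  have hcof : IsCofinal S := by
    intro a
    obtain ⟨b, hb, hab⟩ := hcon a
    exact ⟨b, hb, hab.le⟩
  have h1 := Order.cof_le hcof
  rw [Ordinal.cof_toType] at h1
  exact absurd (hκ.le_cof_ord.trans h1) (not_le.2 hS)

/-- a linear family has a coinitial decreasing sequence of length `1` or of regular length -/
lemma lin_seq {T : Set (Set α)} (hT : Lin T) (hne : T.Nonempty) :
    ∃ κ : Cardinal.{0}, (κ = 1 ∨ κ.IsRegular) ∧ κ ≤ #T ∧ ∃ t : κ.ord.ToType → Set α,
      (∀ i, t i ∈ T) ∧ (∀ i j, i ≤ j → AlmostLE (t j) (t i)) ∧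
      ∀ A ∈ T, ∃ i, AlmostLE (t i) A := by
  classical
  obtain ⟨c, hc⟩ := hne
  by_cases hmin : ∃ s ∈ T, ∀ A ∈ T, AlmostLE s A
  · obtain ⟨s, hs, hsA⟩ := hmin
    refine ⟨1, Or.inl rfl, ?_, fun _ => s, fun _ => hs, fun _ _ _ => AlmostLE.refl s, ?_⟩
    · rw [Cardinal.one_le_iff_ne_zero, Cardinal.mk_ne_zero_iff]
      exact ⟨⟨c, hc⟩⟩
    · intro A hA
      have : Nonempty (1 : Cardinal.{0}).ord.ToType := by
        rw [← Cardinal.mk_ne_zero_iff]
        simp
      exact ⟨this.some, hsA A hA⟩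
  push Not at hmin
  -- the least size of a coinitial subset
  let Co : Set (Set α) → Prop := fun T' => T' ⊆ T ∧ ∀ A ∈ T, ∃ B ∈ T', AlmostLE B A
  let Sz : Set Cardinal.{0} := {κ | ∃ T', Co T' ∧ #T' = κ}
  have hT0 : Co T := ⟨Subset.rfl, fun A hA => ⟨A, hA, AlmostLE.refl A⟩⟩
  have hSz : Sz.Nonempty := ⟨#T, T, hT0, rfl⟩
  obtain ⟨κ, hκ⟩ : ∃ κ, κ = sInf Sz := ⟨_, rfl⟩
  have hκm : κ ∈ Sz := hκ ▸ csInf_mem hSz
  have hκle : ∀ T', Co T' → κ ≤ #T' := fun T' h => hκ ▸ csInf_le' ⟨T', h, rfl⟩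
  obtain ⟨T', hT', hT'c⟩ := hκm
  -- small subsets have a lower bound
  have hlow : ∀ T'' ⊆ T, #T'' < κ → ∃ s ∈ T, ∀ A ∈ T'', AlmostLE s A := by
    intro T'' hs hlt
    by_contra hcon
    push Not at hcon
    have : Co T'' := by
      refine ⟨hs, fun A hA => ?_⟩
      obtain ⟨B, hB, hAB⟩ := hcon A hA
      rcases hT.2 A hA B (hs hB) with h | h
      · exact absurd h hAB
      · exact ⟨B, hB, h⟩
    exact absurd (hκle _ this) (not_le.2 hlt)
  have hκ0 : ℵ₀ ≤ κ := by
    by_contra hlt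
    rw [not_le, ← hT'c, Cardinal.lt_aleph0_iff_set_finite] at hlt
    obtain ⟨s, hs, -, hsA⟩ := exists_min hT hT0.2 hc hlt.toFinset (by
      rw [Set.Finite.coe_toFinset]; exact hT'.1)
    obtain ⟨A, hA, hsA'⟩ := hmin s hs
    obtain ⟨B, hB, hBA⟩ := hT'.2 A hA
    exact hsA' ((hsA B (hlt.mem_toFinset.2 hB)).trans hBA)
  have he : Nonempty (κ.ord.ToType ≃ T') := by
    rw [← Cardinal.eq, hT'c]
    simp
  obtain ⟨e⟩ := he
  let G : (i : κ.ord.ToType) → ((j : κ.ord.ToType) → j < i → Set α) → Set α := fun i prev =>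
    if h : ∃ s ∈ T, (∀ j (hj : j < i), AlmostLE s (prev j hj)) ∧ AlmostLE s (e i) then h.choose
    else c
  let t : κ.ord.ToType → Set α := (wellFounded_lt (α := κ.ord.ToType)).fix G
  have ht : ∀ i, t i = G i (fun j _ => t j) := fun i => WellFounded.fix_eq _ _ _
  have htT : ∀ i, t i ∈ T := by
    intro i
    rw [ht i]
    simp only [G]
    split_ifs with h
    · exact h.choose_spec.1
    · exact hc
  have hspec : ∀ i, (∀ j, j < i → AlmostLE (t i) (t j)) ∧ AlmostLE (t i) (e i) := by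
    intro i
    have h : ∃ s ∈ T, (∀ j (_ : j < i), AlmostLE s (t j)) ∧ AlmostLE s (e i) := by
      have hlt : #(insert ((e i : T') : Set α) (t '' (Iio i)) : Set (Set α)) < κ := by
        refine lt_of_le_of_lt Cardinal.mk_insert_le ?_
        refine Cardinal.add_lt_of_lt hκ0 ?_ (lt_of_lt_of_le Cardinal.one_lt_aleph0 hκ0)
        exact lt_of_le_of_lt Cardinal.mk_image_le (Cardinal.mk_Iio_toType_ord_lt i)
      obtain ⟨s, hs, hsA⟩ := hlow _ (by
        rintro A (rfl | ⟨j, _, rfl⟩)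
        · exact hT'.1 (e i).2
        · exact htT j) hlt
      exact ⟨s, hs, fun j hj => hsA _ (Or.inr ⟨j, hj, rfl⟩), hsA _ (Or.inl rfl)⟩
    have h1 : t i = h.choose := by
      rw [ht i]
      simp only [G]
      rw [dif_pos h]
    rw [h1]
    exact h.choose_spec.2
  have hdec : ∀ i j, i ≤ j → AlmostLE (t j) (t i) := by
    intro i j hij
    rcases hij.eq_or_lt with rfl | hlt
    · exact AlmostLE.refl _
    · exact (hspec j).1 i hlt
  have hco : ∀ A ∈ T, ∃ i, AlmostLE (t i) A := by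
    intro A hA
    obtain ⟨B, hB, hBA⟩ := hT'.2 A hA
    refine ⟨e.symm ⟨B, hB⟩, ?_⟩
    have h1 := (hspec (e.symm ⟨B, hB⟩)).2
    rw [Equiv.apply_symm_apply] at h1
    exact h1.trans hBA
  refine ⟨κ, Or.inr ⟨hκ0, ?_⟩, hκle _ hT0, t, htT, hdec, hco⟩
  obtain ⟨s, hs, hsc⟩ := Order.exists_cof_eq (α := κ.ord.ToType)
  rw [Ordinal.cof_toType] at hsc
  rw [← hsc]
  refine (hκle (t '' s) ⟨?_, ?_⟩).trans Cardinal.mk_image_le
  · rintro _ ⟨i, _, rfl⟩
    exact htT i
  · intro A hA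
    obtain ⟨i, hi⟩ := hco A hA
    obtain ⟨j, hj, hij⟩ := hs i
    exact ⟨t j, ⟨j, hj, rfl⟩, (hdec i j hij).trans hi⟩

/-- a family without pseudointersection is not smaller than a regular sequence refining it -/
lemma le_of_refines {κ : Cardinal.{0}} (hκ : κ.IsRegular) {t : κ.ord.ToType → Set α}
    (ht : Dec κ t) {F : Set (Set α)} (hF : Ref (range t) F) (hno : ¬ ∃ P, Ps P F) : κ ≤ #F := by
  classical
  by_contra hlt
  rw [not_le] at hlt
  apply hno
  have h1 : ∀ A : F, ∃ i, AlmostLE (t i) A := by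
    rintro ⟨A, hA⟩
    obtain ⟨_, ⟨i, rfl⟩, hi⟩ := hF A hA
    exact ⟨i, hi⟩
  choose f hf using h1
  obtain ⟨j, hj⟩ := bounded hκ (range f) (lt_of_le_of_lt Cardinal.mk_range_le hlt)
  exact ⟨t j, ht.1 j, fun A hA => (ht.2 _ _ (hj _ ⟨⟨A, hA⟩, rfl⟩)).trans (hf ⟨A, hA⟩)⟩

/-- comparison of the lengths -/
lemma compare {κ μ : Cardinal.{0}} (hμ : μ.IsRegular) {B : μ.ord.ToType → Set α} (hB : Dec μ B)
    (hno : ¬ ∃ P, Ps P (range B)) (hκ : κ = 1 ∨ κ.IsRegular) {v : κ.ord.ToType → Set α}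
    (hv : Dec κ v) (hR : Ref (range v) (range B)) : κ = μ := by
  classical
  have hμne : Nonempty μ.ord.ToType := by
    rw [← Cardinal.mk_ne_zero_iff]
    simpa using hμ.ne_zero
  have hκr : κ.IsRegular := by
    rcases hκ with rfl | h
    · exfalso
      apply hno
      obtain ⟨_, ⟨i, rfl⟩, hi⟩ := hR _ ⟨hμne.some, rfl⟩
      refine ⟨v i, hv.1 i, ?_⟩
      rintro _ ⟨k, rfl⟩
      obtain ⟨_, ⟨j, rfl⟩, hj⟩ := hR _ ⟨k, rfl⟩
      have hsub : Subsingleton (1 : Cardinal.{0}).ord.ToType := by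
        rw [← Cardinal.le_one_iff_subsingleton]
        simp
      rw [Subsingleton.elim i j]
      exact hj
    · exact h
  apply le_antisymm
  · exact (le_of_refines hκr hv hR hno).trans (mk_range_dec μ B)
  · by_contra hlt
    rw [not_le] at hlt
    have h1 : ∀ i, ∃ k, ¬ AlmostLE (v i) (B k) := by
      intro i
      by_contra hcon
      push Not at hcon
      exact hno ⟨v i, hv.1 i, by rintro _ ⟨k, rfl⟩; exact hcon k⟩
    choose f hf using h1
    obtain ⟨j, hj⟩ := bounded hμ (range f) (lt_of_le_of_lt Cardinal.mk_range_le (by simpa using hlt))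
    obtain ⟨_, ⟨i, rfl⟩, hi⟩ := hR _ ⟨j, rfl⟩
    exact hf i (hi.trans (hB.2 _ _ (hj _ ⟨i, rfl⟩)))

/-- there is a decreasing sequence of regular length without pseudointersection -/
lemma exists_tower : ∃ (μ : Cardinal.{0}) (B : μ.ord.ToType → Set ℕ), μ.IsRegular ∧ Dec μ B ∧
    ¬ ∃ P, Ps P (range B) := by
  classical
  obtain ⟨T, hTm⟩ := zorn_subset {T : Set (Set ℕ) | Lin T} (by
    intro c hcZ hchain
    refine ⟨⋃₀ c, ⟨?_, ?_⟩, fun s hs => Set.subset_sUnion_of_mem hs⟩
    · rintro A ⟨T, hT, hA⟩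
      exact (hcZ hT).1 A hA
    · rintro A ⟨T1, hT1, hA⟩ B ⟨T2, hT2, hB⟩
      rcases hchain.total hT1 hT2 with h | h
      · exact (hcZ hT2).2 A (h hA) B hB
      · exact (hcZ hT1).2 A hA B (h hB))
  have hT : Lin T := hTm.prop
  have hno : ¬ ∃ P, Ps P T := by
    rintro ⟨P, hP, hPT⟩
    -- a subset of `P` which is infinite with infinite complement in `P`
    obtain ⟨Q, hQP, hQ, hQc⟩ : ∃ Q ⊆ P, Q.Infinite ∧ (P \ Q).Infinite := by
      let g := Nat.nth (· ∈ P)
      have hg : StrictMono g := Nat.nth_strictMono hP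
      have hgm : ∀ n, g n ∈ P := fun n => Nat.nth_mem_of_infinite hP n
      refine ⟨range (fun n => g (2 * n)), ?_, ?_, ?_⟩
      · rintro _ ⟨n, rfl⟩
        exact hgm _
      · apply Set.infinite_range_of_injective
        intro a b hab
        have := hg.injective hab
        omega
      · refine (Set.infinite_range_of_injective (f := fun n => g (2 * n + 1)) ?_).mono ?_
        · intro a b hab
          have := hg.injective hab
          omega
        · rintro _ ⟨n, rfl⟩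
          refine ⟨hgm _, ?_⟩
          rintro ⟨m, hm⟩
          have := hg.injective hm
          omega
    have hQT : Lin (insert Q T) := by
      have hQA : ∀ A ∈ T, AlmostLE Q A := fun A hA => (almostLE_of_subset hQP).trans (hPT A hA)
      constructor
      · rintro A (rfl | hA)
        · exact hQ
        · exact hT.1 A hA
      · rintro A (rfl | hA) B (rfl | hB)
        · exact Or.inl (AlmostLE.refl _)
        · exact Or.inl (hQA B hB)
        · exact Or.inr (hQA A hA)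
        · exact hT.2 A hA B hB
    have h1 := hTm.le_of_ge hQT (Set.subset_insert _ _)
    have h2 := hPT Q (h1 (Set.mem_insert _ _))
    exact hQc h2
  have hne : T.Nonempty := by
    rw [Set.nonempty_iff_ne_empty]
    rintro rfl
    exact hno ⟨Set.univ, Set.infinite_univ, by simp⟩
  obtain ⟨κ, hκ, -, t, ht, hdec, hco⟩ := lin_seq hT hne
  have hD : Dec κ t := ⟨fun i => hT.1 _ (ht i), hdec⟩
  have hno' : ¬ ∃ P, Ps P (range t) := by
    rintro ⟨P, hP, hPt⟩
    refine hno ⟨P, hP, fun A hA => ?_⟩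
    obtain ⟨i, hi⟩ := hco A hA
    exact (hPt _ ⟨i, rfl⟩).trans hi
  refine ⟨κ, t, ?_, hD, hno'⟩
  rcases hκ with rfl | h
  · exfalso
    have hn : Nonempty (1 : Cardinal.{0}).ord.ToType := by
      rw [← Cardinal.mk_ne_zero_iff]
      simp
    have hsub : Subsingleton (1 : Cardinal.{0}).ord.ToType := by
      rw [← Cardinal.le_one_iff_subsingleton]
      simp
    apply hno'
    refine ⟨t hn.some, hD.1 _, ?_⟩
    rintro _ ⟨i, rfl⟩
    rw [Subsingleton.elim hn.some i]
    exact AlmostLE.refl _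
  · exact h

end Pool.Agent.Y972.LR
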