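import Mathlib
import Pool.Agent.Y972.LR.Struct

set_option autoImplicit false

/-!
# Two centered families have refinements of the same length
-/

open Set Cardinal

namespace Pool.Agent.Y972.LR

open Pool.Agent.H829R3.LR

/-- two centered families of size `< lam` have refinements of the same length -/
lemma prod {lam : Cardinal.{0}} (h0 : ℵ₀ < lam)
    (hS : ∀ G : Set (Set ℕ), Cent G → #G < lam → ∃ T : Set (Set ℕ), Lin T ∧ Ref T G)
    {G G' : Set (Set ℕ)} (hG : Cent G) (hGc : #G < lam) (hG' : Cent G') (hGc' : #G' < lam) :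
    ∃ κ : Cardinal.{0}, (κ = 1 ∨ κ.IsRegular) ∧ ∃ u v : κ.ord.ToType → Set ℕ,
      Dec κ u ∧ Dec κ v ∧ Ref (range u) G ∧ Ref (range v) G' := by
  classical
  have hS2 : Small (ℕ × ℕ) lam (#(Set ℕ)) := by
    have h1 : Small ℕ lam (#(Set ℕ)) := by
      intro G hG hGc
      obtain ⟨T, hT, hR⟩ := hS G hG hGc
      exact ⟨T, hT, hR, Cardinal.mk_set_le T⟩
    exact h1.transfer (Denumerable.eqv (ℕ × ℕ))
  let K : Set (Set (ℕ × ℕ)) := ((fun A : Set ℕ => {p : ℕ × ℕ | p.1 ∈ A}) '' G) ∪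
    ((fun B : Set ℕ => {p : ℕ × ℕ | p.2 ∈ B}) '' G') ∪
    (Set.range (fun m : ℕ => {p : ℕ × ℕ | m ≤ p.1 ∧ m ≤ p.2}))
  have hKc : #K < lam := by
    refine lt_of_le_of_lt (Cardinal.mk_union_le _ _) ?_
    refine Cardinal.add_lt_of_lt h0.le ?_ ?_
    · refine lt_of_le_of_lt (Cardinal.mk_union_le _ _) ?_
      exact Cardinal.add_lt_of_lt h0.le (lt_of_le_of_lt Cardinal.mk_image_le hGc)
        (lt_of_le_of_lt Cardinal.mk_image_le hGc')
    · refine lt_of_le_of_lt Cardinal.mk_range_le ?_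
      simpa using h0
  have hK : Cent K := by
    have hbase : ∀ Φ : Finset (Set (ℕ × ℕ)), (↑Φ : Set (Set (ℕ × ℕ))) ⊆ K →
        ∃ (Ψ Γ : Finset (Set ℕ)) (m : ℕ), (↑Ψ : Set (Set ℕ)) ⊆ G ∧ (↑Γ : Set (Set ℕ)) ⊆ G' ∧
          {p : ℕ × ℕ | p.1 ∈ (⋂ A ∈ Ψ, A) ∧ p.2 ∈ (⋂ A ∈ Γ, A) ∧ m ≤ p.1 ∧ m ≤ p.2} ⊆
            ⋂ D ∈ Φ, D := by
      intro Φ
      induction Φ using Finset.induction_on with
      | empty => intro _; exact ⟨∅, ∅, 0, by simp, by simp, by simp⟩
      | insert D Φ hD ih =>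
        intro hΦ
        rw [Finset.coe_insert, Set.insert_subset_iff] at hΦ
        obtain ⟨Ψ, Γ, m, h1, h2, h3⟩ := ih hΦ.2
        have h4 : ∀ p ∈ {p : ℕ × ℕ | p.1 ∈ (⋂ A ∈ Ψ, A) ∧ p.2 ∈ (⋂ A ∈ Γ, A) ∧ m ≤ p.1 ∧
            m ≤ p.2}, ∀ E ∈ Φ, p ∈ E := by
          intro p hp E hE
          have := h3 hp
          simp only [mem_iInter] at this
          exact this E hE
        rcases hΦ.1 with (⟨A, hA, rfl⟩ | ⟨B, hB, rfl⟩) | ⟨k, rfl⟩
        · refine ⟨insert A Ψ, Γ, m, ?_, h2, ?_⟩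
          · rw [Finset.coe_insert, Set.insert_subset_iff]; exact ⟨hA, h1⟩
          · rintro p ⟨hp1, hp2, hp3, hp4⟩
            simp only [mem_iInter] at hp1
            simp only [mem_iInter]
            intro E hE
            rcases Finset.mem_insert.1 hE with rfl | hE
            · exact hp1 A (Finset.mem_insert_self _ _)
            · refine h4 p ⟨?_, hp2, hp3, hp4⟩ E hE
              simp only [mem_iInter]
              exact fun C hC => hp1 C (Finset.mem_insert_of_mem hC)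
        · refine ⟨Ψ, insert B Γ, m, h1, ?_, ?_⟩
          · rw [Finset.coe_insert, Set.insert_subset_iff]; exact ⟨hB, h2⟩
          · rintro p ⟨hp1, hp2, hp3, hp4⟩
            simp only [mem_iInter] at hp2
            simp only [mem_iInter]
            intro E hE
            rcases Finset.mem_insert.1 hE with rfl | hE
            · exact hp2 B (Finset.mem_insert_self _ _)
            · refine h4 p ⟨hp1, ?_, hp3, hp4⟩ E hE
              simp only [mem_iInter]
              exact fun C hC => hp2 C (Finset.mem_insert_of_mem hC)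
        · refine ⟨Ψ, Γ, max m k, h1, h2, ?_⟩
          rintro p ⟨hp1, hp2, hp3, hp4⟩
          simp only [mem_iInter]
          intro E hE
          rcases Finset.mem_insert.1 hE with rfl | hE
          · exact ⟨le_trans (le_max_right _ _) hp3, le_trans (le_max_right _ _) hp4⟩
          · exact h4 p ⟨hp1, hp2, le_trans (le_max_left _ _) hp3,
              le_trans (le_max_left _ _) hp4⟩ E hE
    intro Φ hΦ
    obtain ⟨Ψ, Γ, m, h1, h2, h3⟩ := hbase Φ hΦ
    refine Set.Infinite.mono h3 ?_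
    have hI := hG Ψ h1
    have hJ := hG' Γ h2
    obtain ⟨y, hy, hym⟩ := hJ.exists_gt m
    have hI2 : ((⋂ A ∈ Ψ, A) ∩ {x | m ≤ x}).Infinite := by
      apply inter_inf hI
      refine (Set.finite_lt_nat m).subset ?_
      rintro x ⟨_, hx⟩
      simp only [Set.mem_ofPred_eq, not_le] at hx ⊢
      exact hx
    refine (hI2.image (f := fun x => (x, y)) (fun a _ b _ h => (Prod.mk.inj h).1)).mono ?_
    rintro _ ⟨x, ⟨hx, hxm⟩, rfl⟩
    exact ⟨hx, hy, hxm, hym.le⟩
  obtain ⟨T, hT, hR, _⟩ := hS2 K hK hKc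
  have hne : T.Nonempty := by
    obtain ⟨B, hB, -⟩ := hR _ (Or.inr ⟨0, rfl⟩)
    exact ⟨B, hB⟩
  -- projections
  have hproj : ∀ t ∈ T, (Prod.fst '' t).Infinite ∧ (Prod.snd '' t).Infinite := by
    intro t ht
    have h1 : ∀ m : ℕ, ∃ p ∈ t, m ≤ p.1 ∧ m ≤ p.2 := by
      intro m
      have h2 := compat_one hT hR ht (D := {p : ℕ × ℕ | m ≤ p.1 ∧ m ≤ p.2})
        (Or.inr ⟨m, rfl⟩)
      obtain ⟨p, hp1, hp2⟩ := h2.nonempty
      exact ⟨p, hp1, hp2⟩
    constructor
    · apply Set.infinite_of_forall_exists_gt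
      intro a
      obtain ⟨p, hp, h2, h3⟩ := h1 (a + 1)
      exact ⟨p.1, ⟨p, hp, rfl⟩, by omega⟩
    · apply Set.infinite_of_forall_exists_gt
      intro a
      obtain ⟨p, hp, h2, h3⟩ := h1 (a + 1)
      exact ⟨p.2, ⟨p, hp, rfl⟩, by omega⟩
  obtain ⟨κ, hκ, -, t, ht, hdec, hco⟩ := lin_seq hT hne
  refine ⟨κ, hκ, fun i => Prod.fst '' t i, fun i => Prod.snd '' t i,
    ⟨fun i => (hproj _ (ht i)).1, fun i j hij => image_almost (hdec i j hij)⟩,
    ⟨fun i => (hproj _ (ht i)).2, fun i j hij => image_almost (hdec i j hij)⟩, ?_, ?_⟩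
  · intro A hA
    obtain ⟨B, hB, hBA⟩ := hR _ (Or.inl (Or.inl ⟨A, hA, rfl⟩))
    obtain ⟨i, hi⟩ := hco B hB
    refine ⟨_, ⟨i, rfl⟩, (image_almost (hi.trans hBA)).trans (almostLE_of_subset ?_)⟩
    rintro _ ⟨p, hp, rfl⟩
    exact hp
  · intro A hA
    obtain ⟨B, hB, hBA⟩ := hR _ (Or.inl (Or.inr ⟨A, hA, rfl⟩))
    obtain ⟨i, hi⟩ := hco B hB
    refine ⟨_, ⟨i, rfl⟩, (image_almost (hi.trans hBA)).trans (almostLE_of_subset ?_)⟩
    rintro _ ⟨p, hp, rfl⟩
    exact hp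

/-- **structure below the linear refinement number**: if `lam` is an uncountable cardinal such that
all centered families of size `< lam` have linear refinements, and `B` is a decreasing sequence
of the least possible length `μ` without pseudointersection, then every centered family of size
`< lam` is refined by a decreasing sequence of length `μ` -/
lemma below {lam μ : Cardinal.{0}} (h0 : ℵ₀ < lam)
    (hS : ∀ G : Set (Set ℕ), Cent G → #G < lam → ∃ T : Set (Set ℕ), Lin T ∧ Ref T G)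
    (hμ : μ.IsRegular) {B : μ.ord.ToType → Set ℕ} (hB : Dec μ B)
    (hno : ¬ ∃ P, Ps P (range B))
    (hleast : ∀ κ : Cardinal.{0}, (∃ t : κ.ord.ToType → Set ℕ, Dec κ t ∧
      ¬ ∃ P, Ps P (range t)) → μ ≤ κ) {F : Set (Set ℕ)} (hF : Cent F) (hFc : #F < lam) :
    ∃ u : μ.ord.ToType → Set ℕ, Dec μ u ∧ Ref (range u) F := by
  classical
  have hμne : Nonempty μ.ord.ToType := by
    rw [← Cardinal.mk_ne_zero_iff]
    simpa using hμ.ne_zero
  by_cases hP : ∃ P, Ps P F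
  · obtain ⟨P, hP, hPF⟩ := hP
    exact ⟨fun _ => P, ⟨fun _ => hP, fun _ _ _ => AlmostLE.refl P⟩,
      fun A hA => ⟨P, ⟨hμne.some, rfl⟩, hPF A hA⟩⟩
  have hFne : F.Nonempty := by
    rw [Set.nonempty_iff_ne_empty]
    rintro rfl
    exact hP ⟨Set.univ, Set.infinite_univ, by simp⟩
  obtain ⟨T, hT, hR⟩ := hS F hF hFc
  have hTne : T.Nonempty := by
    obtain ⟨A, hA⟩ := hFne
    obtain ⟨C, hC, -⟩ := hR A hA
    exact ⟨C, hC⟩
  obtain ⟨κ, hκ, -, t, ht, hdec, hco⟩ := lin_seq hT hTne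
  have hD : Dec κ t := ⟨fun i => hT.1 _ (ht i), hdec⟩
  have hRt : Ref (range t) F := by
    intro A hA
    obtain ⟨C, hC, hCA⟩ := hR A hA
    obtain ⟨i, hi⟩ := hco C hC
    exact ⟨t i, ⟨i, rfl⟩, hi.trans hCA⟩
  have hno' : ¬ ∃ P, Ps P (range t) := by
    rintro ⟨P, hP1, hPt⟩
    refine hP ⟨P, hP1, fun A hA => ?_⟩
    obtain ⟨_, ⟨i, rfl⟩, hi⟩ := hRt A hA
    exact (hPt _ ⟨i, rfl⟩).trans hi
  have hκr : κ.IsRegular := by
    rcases hκ with rfl | h
    · exfalso
      have hn : Nonempty (1 : Cardinal.{0}).ord.ToType := by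
        rw [← Cardinal.mk_ne_zero_iff]
        simp
      have hsub : Subsingleton (1 : Cardinal.{0}).ord.ToType := by
        rw [← Cardinal.le_one_iff_subsingleton]
        simp
      apply hno'
      refine ⟨t hn.some, hD.1 _, ?_⟩
      rintro _ ⟨i, rfl⟩
      rw [Subsingleton.elim hn.some i]
      exact AlmostLE.refl _
    · exact h
  have hμκ : μ ≤ κ := hleast κ ⟨t, hD, hno'⟩
  have hκF : κ ≤ #F := le_of_refines hκr hD hRt hP
  have hBc : #(range B) < lam := lt_of_le_of_lt (mk_range_dec μ B) (lt_of_le_of_lt (hμκ.trans hκF) hFc)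
  obtain ⟨κ', hκ', u, v, hu, hv, hRu, hRv⟩ := prod h0 hS hF hFc (Lin.cent hB.lin) hBc
  obtain rfl := compare hμ hB hno hκ' hv hRv
  exact ⟨u, hu, hRu⟩

end Pool.Agent.Y972.LR
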